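import Pool.Agent.X140.CP.Base

/-!
MP_5b7a2c_ag: log uniformization of valuations of composita (tensor products of valuations), in all
dimensions, ranks and characteristics.

Let `k` be a field, `K` a field over `k`, and `V` a valuation ring of `K` over `k`. A pair `(R, L)`
consists of a noetherian ring `R` between `k` and `V`, and a field `L` between `R` and `K`. It is
called admissible if it is obtained by the following steps.

(1) `L` is the field of fractions of an `R`-algebra `A` of finite type in `V`, and `A` is a Dedekind
ring (for example, `R = L = k`) or `V ∩ L` is log uniformizable on `Spec A` (for example, `A` is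
quasi-excellent of dimension at most `3`, by Cossart and Piltant).
(2) `R = k`, `L` is finitely generated over `k`, and `V ∩ L` is discrete of rank `n`.
(3) Towers of extensions `L ⊂ L(t)`, `t` transcendental, such that the value of every polynomial in
`t` is determined by a defectless key polynomial, and of finite extensions without defect.
(4) NEW: composita. If `(R, L₁)` and `(k, L₂)` are admissible, if `L₁` and `L₂` are linearly
disjoint over `k`, and if the valuation of the ring generated by `L₁` and `L₂` is given by the
values of the products, then `(R, L₁ L₂)` is admissible: every element `z` of this ring is a sum of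
products `a j * b j`, `a j ∈ L₁`, `b j ∈ L₂`, whose values (written multiplicatively) are at
most the value of `z`. In other words, the valuation is the tensor product of its restrictions.

The theorem: if `(R, K)` is admissible then `V` is log uniformizable on every affine scheme
`Spec A`, where `A ⊆ V` is an `R`-algebra of finite type with the field of fractions `K`.

There are no conditions on `k`, which can be imperfect, and on the residue field of `V`. For
example, let `K` be the field of fractions of `L₁ ⊗ ... ⊗ L_m`, where the `L_i` are function fields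
over `k` with discrete valuations (arcs) or function fields of dimension at most `3` with arbitrary
valuations (with defect, say), with linearly disjoint residue fields and independent value groups,
or an extension of such a field by a tower as in (3), or a compositum of such fields.

The proof of (4): let `P₁` and `P₂` be the local rings of two log uniformizations of `V ∩ L₁` and
`V ∩ L₂`. The homomorphism from the tensor product of their residue fields to the residue field of
`V` is injective; this is a consequence of the condition on the values, by linear functionals on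
`L₁ / (maximal ideal)`. So the centre `𝔫` of `V` on `P₁ ⊗ P₂` is generated by the two maximal
ideals. Two regular systems of parameters `x` of `P₁` and `y` of `P₂` form a regular sequence in
`P₁ ⊗ P₂`, since `k` is a field, so the height of `𝔫` is at least the sum of the dimensions, and the
localization `P` of `P₁ ⊗ P₂` at `𝔫` is regular with the regular system of parameters `x, y`. By
the condition on the values, and after a toroidal blowing-up of `P`, every element of the ring
generated by `L₁` and `L₂` is a product `a j * b j` times a unit, so it is a monomial times a unit if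
the `a j` and `b j` are monomials times units on `P₁` and `P₂`.

helper140; built on the starting libraries Pool/Agent/H176/DT, Pool/Agent/TH188/QS and
Pool/Agent/W418/LU2.
-/

set_option autoImplicit false

universe u

namespace Pool.Agent.Results.MP_5b7a2c_ag.CompositaAndTowers

open IsLocalRing Pool.Agent.W418.LU2

/-- The local ring of `Spec B` at the centre of the valuation ring `V`: the fractions of elements
of `B` whose denominators are units of `V`. -/
def centreRing {F : Type u} [Field F] (V : ValuationSubring F) (B : Subring F) : Subring F where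
  carrier := {x | ∃ a ∈ B, ∃ b ∈ B, b ≠ 0 ∧ b⁻¹ ∈ V ∧ x = a * b⁻¹}
  mul_mem' := (lo V.toSubring B).mul_mem'
  one_mem' := (lo V.toSubring B).one_mem'
  add_mem' := (lo V.toSubring B).add_mem'
  zero_mem' := (lo V.toSubring B).zero_mem'
  neg_mem' := (lo V.toSubring B).neg_mem'

/-- The chart `A[I / f]` of the blowing-up of `Spec A` in the ideal `I`. -/
def blowUpChart {F : Type u} [Field F] (A : Subring F) (I : Ideal A) (f : A) : Subring F :=
  Subring.closure ((A : Set F) ∪ {z | ∃ a ∈ I, z = (a : F) / (f : F)})

/-- `P` is a regular local ring and the zero set of `J` is a divisor with strict normal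
crossings: the radical of `J` is generated by the product of some of the elements of a regular
system of parameters. -/
def RegularPair (P : Type u) [CommRing P] (J : Ideal P) : Prop :=
  ∃ (_ : IsRegularLocalRing P) (n : ℕ) (x : Fin n → P) (s : Finset (Fin n)),
    Ideal.span (Set.range x) = IsLocalRing.maximalIdeal P ∧ ringKrullDim P = n ∧
      J.radical = Ideal.span {∏ i ∈ s, x i}

/-- The blowing-up of `X = Spec A` in `V(I)` is a log desingularization of `(X, V(D))` along the
valuation ring `V`. Here `f ∈ I` generates `I V`, the centre of the lift of the valuation lies in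
the chart `Spec A[I / f]`, and the ideal `D I` defines the preimage of `V(D) ∪ V(I)`. -/
def IsLogDesingularization {F : Type u} [Field F] (V : ValuationSubring F) (A : Subring F)
    (D I : Ideal A) : Prop :=
  ∃ f ∈ I, f ≠ 0 ∧ (∀ a ∈ I, (a : F) / (f : F) ∈ V) ∧
    RegularPair (centreRing V (blowUpChart A I f))
      (Ideal.span {z | ∃ a ∈ D * I, (z : F) = (a : F)})

/-- The valuation ring `V` is log uniformizable on `Spec A`. (The blowings-up in the ideals
`I₀ * I₁` are cofinal: the blowing-up in `I₀ * I₁` factors through the blowing-up in `I₀`.) -/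
def IsLogUniformizable {F : Type u} [Field F] (V : ValuationSubring F) (A : Subring F) : Prop :=
  ∀ D I₀ : Ideal A, D ≠ ⊥ → I₀ ≠ ⊥ →
    ∃ I₁ : Ideal A, I₁ ≠ ⊥ ∧ IsLogDesingularization V A D (I₀ * I₁)

section key

open Polynomial

variable {K : Type u} [Field K] (V : ValuationSubring K) {L : Subfield K} (θ : K)

/-- The monic polynomial `ϕ` over `L` of positive degree is a key polynomial for the valuation
`f ↦ |f(θ)|` of polynomials: if `f` and `g` are nonzero polynomials of smaller degree and
`f g = q ϕ + r` with `deg r < deg ϕ`, then `|q(θ) ϕ(θ)| < |f(θ) g(θ)|`. (So `|r(θ)| = |f(θ) g(θ)|`,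
and the values of the polynomials of smaller degree define a valuation of `L[X] / (ϕ)`.) -/
def IsKey (ϕ : L[X]) : Prop :=
  ϕ.Monic ∧ 0 < ϕ.natDegree ∧ ∀ f g : L[X], f.degree < ϕ.degree → g.degree < ϕ.degree →
    f ≠ 0 → g ≠ 0 → V.valuation (aeval θ (f * g /ₘ ϕ * ϕ)) < V.valuation (aeval θ (f * g))

/-- The polynomials of degree less than the degree of `ϕ` have an orthogonal basis over `L` with
respect to the valuation `f ↦ |f(θ)|`. (For a key polynomial `ϕ` this means that the valued field
`L[X] / (ϕ)` is an extension of `L` of degree `e f`. It holds if there are no limit key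
polynomials of degree at most `deg ϕ`.) -/
def IsDefectless (ϕ : L[X]) : Prop :=
  ∃ (n : ℕ) (β : Fin n → L[X]), (∀ i, (β i).degree < ϕ.degree ∧ β i ≠ 0) ∧
    (∀ f : L[X], f.degree < ϕ.degree → ∃ c : Fin n → L, f = ∑ i, C (c i) * β i) ∧
    ∀ (c : Fin n → L) (i : Fin n), V.valuation (aeval θ (C (c i) * β i)) ≤
      V.valuation (aeval θ (∑ j, C (c j) * β j))

/-- The value of `f(θ)` is determined by `ϕ`: in the `ϕ`-adic expansion `f = ∑ f_k ϕ ^ k` with
`deg f_k < deg ϕ` the value of no term at `θ` is greater than the value of `f(θ)`. -/
def IsDetermined (ϕ f : L[X]) : Prop :=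
  ∃ (N : ℕ) (d : ℕ → L[X]), (∀ k, (d k).degree < ϕ.degree) ∧
    f = ∑ k ∈ Finset.range N, d k * ϕ ^ k ∧
    ∀ k < N, V.valuation (aeval θ (d k * ϕ ^ k)) ≤ V.valuation (aeval θ f)

end key

open Polynomial in
/-- The extension `L ⊆ L'` of subfields of `K` is finite and has no defect with respect to the
valuation ring `V` of `K`. That is, for some valuation ring `W` over `V` of some extension field
`M` of `K`, some root `ζ ∈ M` of a monic polynomial `f` over `V ∩ L` with `|f'(ζ)| = 1`, and some
nonzero elements `β i` of `L'`, the field `L'(ζ)` is the sum of the lines `L(ζ) β i`, and the `β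
i` are orthogonal over `L(ζ) = L[ζ]`. (The extension `L(ζ) / L` is unramified. If `L^h ⊆ L'^h ⊆
K^h` are the henselizations for `V` and `[L'^h : L^h] = e f`, then this holds with `M = K^h`,
`L(ζ)` a large finite subextension of `L^h / L`, and with products of `e` elements of `L'` whose
values represent the cosets of the value group and `f` elements of `L'` whose residues form a
basis for the `β i`. For `M = K` and `L(ζ) = L` it is the condition `[L' : L] = e f`.) -/
def IsFiniteWithoutDefect {K : Type u} [Field K] (V : ValuationSubring K) (L L' : Subfield K) :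
    Prop :=
  L ≤ L' ∧ ∃ (M : Type u) (_ : Field M) (_ : Algebra K M) (W : ValuationSubring M) (ζ : M)
    (f : L[X]) (n : ℕ) (β : Fin n → K), W.comap (algebraMap K M) = V ∧ f.Monic ∧
    (∀ i, (f.coeff i : K) ∈ V) ∧ eval₂ ((algebraMap K M).comp L.subtype) ζ f = 0 ∧
    W.valuation (eval₂ ((algebraMap K M).comp L.subtype) ζ (derivative f)) = 1 ∧
    (∀ i, β i ∈ L' ∧ β i ≠ 0) ∧
    (∀ z ∈ L', ∃ c : Fin n → L[X], algebraMap K M z =
      ∑ i, eval₂ ((algebraMap K M).comp L.subtype) ζ (c i) * algebraMap K M (β i)) ∧
    ∀ (c : Fin n → L[X]) (i : Fin n),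
      W.valuation (eval₂ ((algebraMap K M).comp L.subtype) ζ (c i) * algebraMap K M (β i)) ≤
        W.valuation (∑ j, eval₂ ((algebraMap K M).comp L.subtype) ζ (c j) * algebraMap K M (β j))

/-- `V` is the composite of the valuation ring `V₁` and the valuation ring `W` of its residue
field. -/
def IsComposite {K : Type u} [Field K] (V V₁ : ValuationSubring K)
    (W : ValuationSubring (ResidueField V₁)) : Prop :=
  ∀ z : K, z ∈ V ↔ ∃ hz : z ∈ V₁, residue V₁ ⟨z, hz⟩ ∈ W

/-- `V` is discrete of rank `n`: it is the composite of `n` discrete valuation rings. -/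
def IsDiscreteOfRank : ℕ → ∀ {K : Type u} [Field K], ValuationSubring K → Prop
  | 0, _, _, V => V = ⊤
  | n + 1, K, _, V => ∃ (V₁ : ValuationSubring K) (W : ValuationSubring (ResidueField V₁)),
      IsComposite V V₁ W ∧ IsDiscreteValuationRing V₁ ∧ IsDiscreteOfRank n W

/-- The subring `A` of the valuation ring `V` of `F` has the field of fractions `F`. -/
def IsModel {F : Type u} [Field F] (V : ValuationSubring F) (A : Subring F) : Prop :=
  (∀ a ∈ A, a ∈ V) ∧ ∀ z : F, ∃ a ∈ A, ∃ b ∈ A, b ≠ 0 ∧ z = a * b⁻¹

/-- The subfields `L₁` and `L₂` of `K` are linearly disjoint over `k`: elements of `L₁` which are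
linearly independent over `k` are linearly independent over `L₂`. -/
def AreLinearlyDisjoint (k : Type u) {K : Type u} [Field k] [Field K] [Algebra k K]
    (L₁ L₂ : Subfield K) : Prop :=
  ∀ (n : ℕ) (a b : Fin n → K), (∀ i, a i ∈ L₁) → (∀ i, b i ∈ L₂) →
    (∀ c : Fin n → k, ∑ i, c i • a i = 0 → ∀ i, c i = 0) →
    ∑ i, a i * b i = 0 → ∀ i, b i = 0

/-- The valuation is the tensor product of its restrictions to `L₁` and `L₂`: every element `z` of
the ring generated by `L₁` and `L₂` is a sum of products `a j * b j`, `a j ∈ L₁`, `b j ∈ L₂`,
whose values are at most the value of `z`. -/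
def IsTensorProduct {K : Type u} [Field K] (V : ValuationSubring K) (L₁ L₂ : Subfield K) : Prop :=
  ∀ z ∈ Subring.closure ((L₁ : Set K) ∪ L₂), ∃ (n : ℕ) (a b : Fin n → K),
    (∀ j, a j ∈ L₁ ∧ b j ∈ L₂) ∧ z = ∑ j, a j * b j ∧
      ∀ j, V.valuation (a j * b j) ≤ V.valuation z

open Polynomial in
/-- The admissible pairs `(R, L)` of a subring `R` and a subfield `L` of the field `K` over `k` with
the valuation ring `V`. -/
inductive Admissible (k : Type u) {K : Type u} [Field k] [Field K] [Algebra k K]
    (V : ValuationSubring K) : Subring K → Subfield K → Prop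
  /-- `R₀` is a noetherian ring which contains `k`, `A₀` is the algebra generated over `R₀` by a
  finite set `G`, `V ∩ L` contains `A₀`, the field of fractions of `A₀` is `L`, and `A₀` is a Dedekind
  ring or `V ∩ L` is log uniformizable on `Spec A₀`. -/
  | model (L : Subfield K) (R₀ : Subring L) (G : Set L) : IsNoetherianRing R₀ →
    (∀ c : k, ∃ z ∈ R₀, (z : K) = algebraMap k K c) → G.Finite →
    IsModel (V.comap L.subtype) (Subring.closure ((R₀ : Set L) ∪ G)) →
    (IsDedekindDomain (Subring.closure ((R₀ : Set L) ∪ G)) ∨
      IsLogUniformizable (V.comap L.subtype) (Subring.closure ((R₀ : Set L) ∪ G))) →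
    Admissible k V (R₀.map L.subtype) L
  /-- `L` is generated over `k` by a finite set `T` and `V ∩ L` is discrete of rank `n`. -/
  | discrete (L : Subfield K) (T : Set K) (n : ℕ) : T.Finite →
    Subfield.closure (((algebraMap k K).range : Set K) ∪ T) = L →
    IsDiscreteOfRank n (V.comap L.subtype) → Admissible k V (algebraMap k K).range L
  /-- The step from `L` to `L(t)`, where `t` is transcendental and the value of every polynomial in
  `t` is determined by a defectless key polynomial. -/
  | transcendental (R : Subring K) (L : Subfield K) (t : K) : Admissible k V R L →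
    Transcendental L t →
    (∀ f : L[X], ∃ ϕ : L[X], IsKey V t ϕ ∧ IsDefectless V t ϕ ∧ IsDetermined V t ϕ f) →
    Admissible k V R (L ⊔ Subfield.closure {t})
  /-- The step from `L` to a finite extension `L'` without defect. -/
  | finite (R : Subring K) (L L' : Subfield K) : Admissible k V R L →
    IsFiniteWithoutDefect V L L' → Admissible k V R L'
  /-- The compositum of `L₁` and `L₂`. -/
  | compositum (R : Subring K) (L₁ L₂ : Subfield K) : Admissible k V R L₁ →
    Admissible k V (algebraMap k K).range L₂ → AreLinearlyDisjoint k L₁ L₂ →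
    IsTensorProduct V L₁ L₂ → Admissible k V R (L₁ ⊔ L₂)

lemma discrete_eq (n : ℕ) : ∀ {K : Type u} [Field K] (V : ValuationSubring K),
    IsDiscreteOfRank n V → Pool.Agent.X140.CP.IsDiscreteOfRank n V := by
  induction n with
  | zero => exact fun V h => h
  | succ n ih =>
    rintro K _ V ⟨V₁, W, h1, h2, h3⟩
    exact ⟨V₁, W, h1, h2, ih _ h3⟩

/-- Let `V` be a valuation ring of the field `K` over the field `k`, and let the pair `(R, K)` be
admissible. Let `A` be an `R`-algebra of finite type which is contained in `V` and has the field of
fractions `K`. Then `V` is log uniformizable on `Spec A`: for every closed subset `V(D)` of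
`X = Spec A` and for every blowing-up `X₀` of `X` there is a blowing-up of `X` which factors through
`X₀` and which is a log desingularization of `(X, V(D))` along `V`. -/
theorem result {k K : Type u} [Field k] [Field K] [Algebra k K] (V : ValuationSubring K)
    (hkV : ∀ c : k, algebraMap k K c ∈ V) (R : Subring K) (hR : Admissible k V R ⊤)
    (G : Set K) (hG : G.Finite) (A : Subring K) (hA : A = Subring.closure ((R : Set K) ∪ G))
    (hAV : IsModel V A) : IsLogUniformizable V A := by
  have kp : ∀ {L : Subfield K} {θ : K} {ϕ : Polynomial L}, IsKey V θ ϕ → IsDefectless V θ ϕ →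
      ∃ (n : ℕ) (β : Fin n → Polynomial L), Pool.Agent.H176.DT.KP V θ ϕ β := by
    rintro L θ ϕ ⟨h1, h2, h3⟩ ⟨n, β, h4, h5, h6⟩
    exact ⟨n, β, h1, h2, fun i => (h4 i).1, fun i => (h4 i).2, h5, h6, h3⟩
  have key : ∀ (R : Subring K) (L : Subfield K), Admissible k V R L →
      IsNoetherianRing R ∧ (∀ c : k, algebraMap k K c ∈ R) ∧
        Pool.Agent.H176.DT.Inv V R L.subtype := by
    intro R L hL
    induction hL with
    | model L R₀ G hN hk hG hM hD =>
      refine ⟨?_, ?_, ?_⟩
      · exact isNoetherianRing_of_surjective R₀ _
          (L.subtype.restrict R₀ (R₀.map L.subtype) fun x hx => ⟨x, hx, rfl⟩) (by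
            rintro ⟨_, x, hx, rfl⟩
            exact ⟨⟨x, hx⟩, rfl⟩)
      · intro c
        obtain ⟨z, hz, h⟩ := hk c
        exact ⟨z, hz, h⟩
      · refine Pool.Agent.X140.CP.inv_base V L R₀ G hG ⟨hM.1, hM.2⟩ ?_
        rcases hD with hD | hD
        · exact logUnif_of_dedekind _ _ hM.1 hM.2
        · exact hD
    | discrete L T n hT hL hV =>
      refine ⟨?_, fun c => ⟨c, rfl⟩, Pool.Agent.X140.CP.inv_discrete V hkV L T hT hL n
        (discrete_eq n _ hV)⟩
      have h3 : IsNoetherianRing k := inferInstance
      exact isNoetherianRing_of_surjective k _ (algebraMap k K).rangeRestrict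
        (algebraMap k K).rangeRestrict_surjective
    | transcendental R L t _ ht hdom ih =>
      refine ⟨ih.1, ih.2.1, Pool.Agent.H176.DT.sub_trans V _ t ht (fun f => ?_) ih.2.2⟩
      obtain ⟨ϕ, h1, h2, N, d, h3, h4, h5⟩ := hdom f
      obtain ⟨n, β, h6⟩ := kp h1 h2
      exact ⟨ϕ, n, β, h6, N, d, ⟨h3, h4⟩, h5⟩
    | finite R L L' _ hnd ih =>
      exact ⟨ih.1, ih.2.1, Pool.Agent.H176.DT.sub_nd V _ hnd.1 hnd.2 ih.2.2⟩
    | compositum R L₁ L₂ _ _ hLD hT ih1 ih2 =>
      have h1 := ih1.1
      exact ⟨ih1.1, ih1.2.1, Pool.Agent.X140.CP.inv_comp V hkV R ih1.2.1 L₁ L₂ ih1.2.2 ih2.2.2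
        hLD hT⟩
  obtain ⟨hN, -, hI⟩ := key R ⊤ hR
  exact Pool.Agent.H176.DT.sub_fin V _ hI A G hG hA ⟨hAV.1, hAV.2⟩

end Pool.Agent.Results.MP_5b7a2c_ag.CompositaAndTowers
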